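import Pool.Agent.TH929.MN.San

/-!
# Minimisers of the volume product, from the sharp inequality with its equality case
-/

set_option autoImplicit false

open MeasureTheory Set Filter Topology Matrix
open scoped ENNReal

namespace Pool.Agent.TH929.MN

open Pool.Agent.TH808

variable {n : ℕ}

/-- `(n+1)^(n+1) / (n!)^2` -/
noncomputable def val (n : ℕ) : ℝ := ((n : ℝ) + 1) ^ (n + 1) / (n.factorial : ℝ) ^ 2

/-- `K` is a simplex with centroid `z` -/
def SimC {n : ℕ} (K : Set (Fin n → ℝ)) (z : Fin n → ℝ) : Prop :=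
  ∃ v : Fin (n + 1) → (Fin n → ℝ), AffineIndependent ℝ v ∧ K = convexHull ℝ (range v) ∧
    z = ((n : ℝ) + 1)⁻¹ • ∑ i, v i

/-- the sharp inequality with its equality case -/
def S_MAH : Prop := ∀ (n : ℕ), 1 ≤ n → ∀ K : Set (Fin n → ℝ), BD K → ∀ z ∈ interior K,
  ENNReal.ofReal (val n) ≤ volume K * volume (plr K z) ∧
  (volume K * volume (plr K z) = ENNReal.ofReal (val n) ↔ SimC K z)

/-- the volume product -/
noncomputable def VP {n : ℕ} (K : Set (Fin n → ℝ)) : ℝ≥0∞ :=
  ⨅ z ∈ interior K, volume K * volume (plr K z)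

lemma fact_ne0 (n : ℕ) : (n.factorial : ℝ≥0∞) ≠ 0 := by
  exact_mod_cast (Nat.factorial_pos n).ne'

lemma sv_val (n : ℕ) : sv n = n.factorial * val n := by
  unfold sv val
  have : (n.factorial : ℝ) ≠ 0 := by positivity
  field_simp

lemma MZ_le_iff {K : Set (Fin n → ℝ)} (hK : BD K) {z : Fin n → ℝ} (hz : z ∈ interior K) :
    MZ K z ≤ ENNReal.ofReal (sv n) ↔ volume K * volume (plr K z) ≤ ENNReal.ofReal (val n) := by
  rw [MZ_plr hK.comp hK.conv hz, sv_val, ENNReal.ofReal_mul (by positivity),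
    ENNReal.ofReal_natCast]
  exact ENNReal.mul_le_mul_iff_right (fact_ne0 n) (ENNReal.natCast_ne_top _)

/-- the volume product is attained at an interior point, if it is finite -/
theorem VP_attained {K : Set (Fin n → ℝ)} (hK : BD K) (hfin : ∃ w, MZ K w ≠ ∞) :
    ∃ z ∈ interior K, VP K = volume K * volume (plr K z) := by
  obtain ⟨z, hz, hmin⟩ := exists_min hK hfin
  refine ⟨z, hz, le_antisymm (iInf₂_le z hz) ?_⟩
  refine le_iInf₂ fun w hw => ?_
  have h := hmin w
  rw [MZ_plr hK.comp hK.conv hz, MZ_plr hK.comp hK.conv hw] at h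
  exact (ENNReal.mul_le_mul_iff_right (fact_ne0 n) (ENNReal.natCast_ne_top _)).1 h

theorem VP_ge (H : S_MAH) (hn : 1 ≤ n) {K : Set (Fin n → ℝ)} (hK : BD K) :
    ENNReal.ofReal (val n) ≤ VP K := le_iInf₂ fun z hz => (H n hn K hK z hz).1

lemma exists_VP_le (n : ℕ) : ∃ L : Set (Fin n → ℝ), BD L ∧ VP L ≤ ENNReal.ofReal (val n) := by
  obtain ⟨L, hL, w, hw⟩ := exists_body n
  have hwi : w ∈ interior L := by
    by_contra hcon
    rw [MZ_top hL.comp hL.conv hL.int hcon] at hw
    exact absurd hw (by simp)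
  exact ⟨L, hL, (iInf₂_le w hwi).trans ((MZ_le_iff hL hwi).1 hw)⟩

/-- a body whose volume product is at most that of the simplices is a simplex -/
theorem simplex_of_le (H : S_MAH) (hn : 1 ≤ n) {K : Set (Fin n → ℝ)} (hK : BD K)
    (hle : VP K ≤ ENNReal.ofReal (val n)) : ∃ z ∈ interior K, SimC K z := by
  have hlt : VP K < ∞ := lt_of_le_of_lt hle ENNReal.ofReal_lt_top
  have hfin : ∃ w, MZ K w ≠ ∞ := by
    by_contra hcon
    push Not at hcon
    have : VP K = ∞ := by
      unfold VP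
      simp only [iInf_eq_top]
      intro z hz
      have h1 := hcon z
      rw [MZ_plr hK.comp hK.conv hz] at h1
      rcases ENNReal.mul_eq_top.1 h1 with ⟨-, h2⟩ | ⟨h2, -⟩
      · exact h2
      · exact absurd h2 (ENNReal.natCast_ne_top _)
    exact absurd this hlt.ne
  obtain ⟨z, hz, hv⟩ := VP_attained hK hfin
  rw [hv] at hle
  have h := H n hn K hK z hz
  exact ⟨z, hz, h.2.1 (le_antisymm hle h.1)⟩

lemma cent_mem {v : Fin (n + 1) → (Fin n → ℝ)} (hv : AffineIndependent ℝ v) :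
    ((n : ℝ) + 1)⁻¹ • ∑ i, v i ∈ interior (convexHull ℝ (range v)) := by
  have hcard : Fintype.card (Fin (n + 1)) = Module.finrank ℝ (Fin n → ℝ) + 1 := by simp
  have htop : affineSpan ℝ (range v) = ⊤ := hv.affineSpan_eq_top_iff_card_eq_finrank_add_one.2 hcard
  set B : AffineBasis (Fin (n + 1)) ℝ (Fin n → ℝ) := ⟨v, hv, htop⟩ with hB
  have h := B.centroid_mem_interior_convexHull
  have e : Finset.univ.centroid ℝ B = ((n : ℝ) + 1)⁻¹ • ∑ i, v i := by
    rw [Finset.centroid_eq_centerMass _ Finset.univ_nonempty]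
    rw [Finset.centerMass_eq_of_sum_1]
    · rw [Finset.smul_sum]
      refine Finset.sum_congr rfl fun i _ => ?_
      simp [Finset.centroidWeights, hB]
      rfl
    · exact Finset.sum_centroidWeights_eq_one_of_nonempty ℝ _ Finset.univ_nonempty
  rw [e] at h
  exact h

theorem VP_simplex (H : S_MAH) (hn : 1 ≤ n) {v : Fin (n + 1) → (Fin n → ℝ)}
    (hv : AffineIndependent ℝ v) (hK : BD (convexHull ℝ (range v))) :
    VP (convexHull ℝ (range v)) = ENNReal.ofReal (val n) := by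
  have hz := cent_mem hv
  refine le_antisymm ?_ (VP_ge H hn hK)
  refine (iInf₂_le _ hz).trans (le_of_eq ?_)
  exact (H n hn _ hK _ hz).2.2 ⟨v, hv, rfl, rfl⟩

lemma BD_simplex {v : Fin (n + 1) → (Fin n → ℝ)} (hv : AffineIndependent ℝ v) :
    BD (convexHull ℝ (range v)) :=
  ⟨(finite_range v).isCompact_convexHull ℝ, convex_convexHull ℝ _, ⟨_, cent_mem hv⟩⟩

/-- **the minimisers of the volume product are exactly the simplices** -/
theorem minimizer_iff (H : S_MAH) (hn : 1 ≤ n) {K : Set (Fin n → ℝ)} (hK : BD K) :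
    (∀ L : Set (Fin n → ℝ), BD L → VP K ≤ VP L) ↔
      ∃ v : Fin (n + 1) → (Fin n → ℝ), AffineIndependent ℝ v ∧ K = convexHull ℝ (range v) := by
  constructor
  · intro h
    obtain ⟨L, hL, hLv⟩ := exists_VP_le n
    obtain ⟨z, -, v, hv, hKv, -⟩ := simplex_of_le H hn hK ((h L hL).trans hLv)
    exact ⟨v, hv, hKv⟩
  · rintro ⟨v, hv, rfl⟩ L hL
    rw [VP_simplex H hn hv hK]
    exact VP_ge H hn hL

end Pool.Agent.TH929.MN
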