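import Pool.Agent.TH537.EQ.Main
import Pool.Agent.TH929.EQ.SIM
import Pool.Agent.TH929.MN.Min

/-!
# The value of the volume product at simplices, and the sharp inequality in the form `S_MAH`
-/

set_option autoImplicit false

open MeasureTheory Set Filter Topology
open scoped ENNReal Pointwise Matrix

namespace Pool.Agent.TH929.MN

open Pool.Agent.TH537.EQ

variable {n : ℕ}

/-- the value at a simplex, in terms of the barycentric coordinates of the origin -/
theorem val_simplex {p : Fin (n + 1) → (Fin n → ℝ)} (hp : AffineIndependent ℝ p)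
    (hL : NB (convexHull ℝ (range p))) :
    ∃ t : Fin (n + 1) → ℝ, (∀ i, 0 < t i) ∧ ∑ i, t i = 1 ∧ ∑ i, t i • p i = 0 ∧
      (n.factorial : ℝ) ^ 2 * (volume.real (convexHull ℝ (range p)) *
        volume.real (pol (convexHull ℝ (range p)))) = (∏ i, t i)⁻¹ := by
  set L : Set (Fin n → ℝ) := convexHull ℝ (range p) with hLdef
  set b : Fin (n + 1) → (Fin (n + 1) → ℝ) := fun i => Fin.cons 1 (p i) with hb
  have hbl : LinearIndependent ℝ b := (Pool.Agent.TH648.MK.affineIndependent_iff_cons p).1 hp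
  have hC : Cn L = {x | ∃ s : Fin (n + 1) → ℝ, (∀ i, 0 ≤ s i) ∧ x = ∑ i, s i • b i} := by
    rw [Cn_eq hL, hLdef]
    exact Pool.Agent.TH648.MK.coneOver_simplex p
  have hbe : ∀ i, b i ⬝ᵥ e0 n = 1 := fun i => by rw [dot_e0, hb]; rfl
  obtain ⟨t, ht, hct⟩ := Pool.Agent.TH929.EQ.coord_pos hbl hC (e0_int hL)
  have hsum : (e0 n) = (Fin.cons (∑ i, t i) (∑ i, t i • p i) : Fin (n + 1) → ℝ) := by
    rw [hct]; exact Pool.Agent.TH648.MK.sum_cons_one p t
  have h0 : ∑ i, t i = 1 := by
    have := congrFun hsum 0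
    simpa [e0] using this.symm
  have h1 : ∑ i, t i • p i = 0 := by
    funext k
    have := congrFun hsum k.succ
    simpa [e0] using this.symm
  refine ⟨t, ht, h0, h1, ?_⟩
  have e1 := vol_T_Cn hL
  have e2 := vol_T_dl hL
  rw [Pool.Agent.TH929.EQ.vol_T hbl hC hbe] at e1
  rw [Pool.Agent.TH929.EQ.vol_Td hbl hC ht hct] at e2
  have hd : 0 < |(Matrix.of b).det| := abs_pos.2 (Pool.Agent.TH929.EQ.det_ne hbl)
  have hpt : 0 < ∏ i, t i := Finset.prod_pos fun i _ => ht i
  have hn : (0:ℝ) < (n:ℝ) + 1 := by positivity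
  have g1 := congrArg ENNReal.toReal e1
  have g2 := congrArg ENNReal.toReal e2
  rw [ENNReal.toReal_ofReal (by positivity), ENNReal.toReal_mul,
    ENNReal.toReal_ofReal (by positivity)] at g1 g2
  have k1 : volume.real L = (n + 1) * (|(Matrix.of b).det| / ((n + 1).factorial : ℝ)) := by
    rw [g1, Measure.real]; field_simp
  have k2 : volume.real (pol L) = (n + 1) *
      (|(Matrix.of b).det|⁻¹ * (∏ i, t i)⁻¹ / ((n + 1).factorial : ℝ)) := by
    rw [g2, Measure.real]; field_simp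
  rw [k1, k2, Nat.factorial_succ]
  push_cast
  have hf : (0:ℝ) < n.factorial := by positivity
  field_simp

/-- equality in the inequality between the arithmetic and geometric means -/
lemma amgm_eq {t : Fin (n + 1) → ℝ} (ht : ∀ i, 0 < t i) (h1 : ∑ i, t i = 1) :
    (∏ i, t i)⁻¹ = ((n : ℝ) + 1) ^ (n + 1) ↔ ∀ i, t i = ((n : ℝ) + 1)⁻¹ := by
  have hn : (0:ℝ) < (n:ℝ) + 1 := by positivity
  constructor
  · intro h
    have hw : ∑ i : Fin (n + 1), ((n : ℝ) + 1)⁻¹ = 1 := by
      rw [Finset.sum_const, Finset.card_univ, Fintype.card_fin, nsmul_eq_mul]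
      push_cast
      exact mul_inv_cancel₀ hn.ne'
    have hp : ∏ i, t i = (((n : ℝ) + 1)⁻¹) ^ (n + 1) := by
      rw [← inv_inv (∏ i, t i), h, inv_pow]
    have hg : ∏ i, t i ^ (((n : ℝ) + 1)⁻¹) = ((n : ℝ) + 1)⁻¹ := by
      rw [Real.finsetProd_rpow _ _ (fun i _ => (ht i).le), hp]
      rw [← Real.rpow_natCast, ← Real.rpow_mul (by positivity)]
      push_cast
      rw [mul_inv_cancel₀ hn.ne', Real.rpow_one]
    have ha : ∑ i, ((n : ℝ) + 1)⁻¹ * t i = ((n : ℝ) + 1)⁻¹ := by
      rw [← Finset.mul_sum, h1, mul_one]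
    have h2 := (Real.geom_mean_eq_arith_mean_weighted_iff_of_pos Finset.univ
      (fun _ => ((n : ℝ) + 1)⁻¹) t (fun _ _ => by positivity) hw (fun i _ => (ht i).le)).1
      (by rw [hg, ha])
    intro i
    have h3 : ∑ j, t j = ((n : ℝ) + 1) * t i := by
      rw [Finset.sum_congr rfl (fun j hj => h2 j hj i (Finset.mem_univ i)), Finset.sum_const,
        Finset.card_univ, Fintype.card_fin, nsmul_eq_mul]
      push_cast
      ring
    rw [h1] at h3
    field_simp
    linarith
  · intro h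
    rw [Finset.prod_congr rfl (fun i _ => h i), Finset.prod_const, Finset.card_univ,
      Fintype.card_fin, inv_pow, inv_inv]

lemma NB_interior {K : Set (Fin n → ℝ)} (hK : Pool.Agent.TH808.BD K) {z : Fin n → ℝ}
    (hz : z ∈ interior K) : NB ((fun x => x - z) '' K) := NB_sub hK.comp hK.conv hz

/-- translates of simplices -/
lemma hull_sub (p : Fin (n + 1) → (Fin n → ℝ)) (z : Fin n → ℝ) :
    (fun x => x - z) '' convexHull ℝ (range p) = convexHull ℝ (range fun i => p i - z) := by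
  have h4 : (fun x : Fin n → ℝ => x + -z) '' convexHull ℝ (range p) =
      convexHull ℝ ((fun x : Fin n → ℝ => x + -z) '' range p) :=
    (AffineMap.image_convexHull
      ((AffineEquiv.vaddConst ℝ (-z) : (Fin n → ℝ) ≃ᵃ[ℝ] (Fin n → ℝ)).toAffineMap) (range p))
  simp only [← sub_eq_add_neg] at h4
  rw [h4, ← range_comp]
  rfl

lemma aff_sub {p : Fin (n + 1) → (Fin n → ℝ)} (hp : AffineIndependent ℝ p) (z : Fin n → ℝ) :
    AffineIndependent ℝ fun i => p i - z := by
  have := hp.map' (AffineEquiv.vaddConst ℝ (-z) : (Fin n → ℝ) ≃ᵃ[ℝ] (Fin n → ℝ)).toAffineMap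
    (AffineEquiv.vaddConst ℝ (-z) : (Fin n → ℝ) ≃ᵃ[ℝ] (Fin n → ℝ)).injective
  simp only [sub_eq_add_neg]
  exact this

/-- for a simplex, equality holds exactly at the centroid -/
theorem simplex_iff {p : Fin (n + 1) → (Fin n → ℝ)} (hp : AffineIndependent ℝ p) {z : Fin n → ℝ}
    (hz : z ∈ interior (convexHull ℝ (range p))) :
    volume.real (convexHull ℝ (range p)) * volume.real (plr (convexHull ℝ (range p)) z) =
      ((n : ℝ) + 1) ^ (n + 1) / (n.factorial : ℝ) ^ 2 ↔ z = ((n : ℝ) + 1)⁻¹ • ∑ i, p i := by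
  have hn : (0:ℝ) < (n:ℝ) + 1 := by positivity
  have hF : (0:ℝ) < (n.factorial : ℝ) ^ 2 := by positivity
  have hNB : NB ((fun x => x - z) '' convexHull ℝ (range p)) :=
    NB_sub ((finite_range p).isCompact_convexHull ℝ) (convex_convexHull ℝ _) hz
  have e1 : volume.real ((fun x => x - z) '' convexHull ℝ (range p)) =
      volume.real (convexHull ℝ (range p)) := by
    rw [Measure.real, vol_sub]; rfl
  rw [← e1, ← pol_sub]
  rw [hull_sub] at hNB ⊢
  have hq := aff_sub hp z
  obtain ⟨t, ht, h1, h2, h3⟩ := val_simplex hq hNB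
  rw [eq_div_iff hF.ne', mul_comm, h3, amgm_eq ht h1]
  have hz' : ∑ i, t i • p i = z := by
    have h4 : ∑ i, t i • (p i - z) = ∑ i, t i • p i - (∑ i, t i) • z := by
      simp only [smul_sub, Finset.sum_sub_distrib, Finset.sum_smul]
    rw [h4, h1, one_smul] at h2
    exact sub_eq_zero.1 h2
  constructor
  · intro h
    rw [← hz', Finset.smul_sum]
    exact Finset.sum_congr rfl fun i _ => by rw [h i]
  · intro h i
    have hli := (Pool.Agent.TH648.MK.affineIndependent_iff_cons p).1 hp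
    rw [Fintype.linearIndependent_iff] at hli
    have h5 : ∑ i, (t i - ((n : ℝ) + 1)⁻¹) • (Fin.cons 1 (p i) : Fin (n + 1) → ℝ) = 0 := by
      rw [Pool.Agent.TH648.MK.sum_cons_one]
      have g1 : ∑ i, (t i - ((n : ℝ) + 1)⁻¹) = 0 := by
        rw [Finset.sum_sub_distrib, h1, Finset.sum_const, Finset.card_univ, Fintype.card_fin,
          nsmul_eq_mul]
        push_cast
        rw [mul_inv_cancel₀ hn.ne', sub_self]
      have g2 : ∑ i, (t i - ((n : ℝ) + 1)⁻¹) • p i = 0 := by
        simp only [sub_smul, Finset.sum_sub_distrib]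
        rw [hz', ← Finset.smul_sum, ← h, sub_self]
      rw [g1, g2]
      funext j
      refine Fin.cases ?_ (fun k => ?_) j <;> simp
    have := hli _ h5 i
    linarith

/-- **the sharp inequality with its equality case** -/
theorem s_MAH : S_MAH := by
  intro n hn K hK z hz
  have h := mahler hK.comp hK.conv hz
  have hpe : Pool.Agent.TH808.plr K z = plr K z := rfl
  have hv1 : volume K ≠ ⊤ := hK.comp.measure_lt_top.ne
  have hv2 : volume (plr K z) ≠ ⊤ := by
    rw [← pol_sub]
    exact (pol_bdd (NB_sub hK.comp hK.conv hz)).measure_lt_top.ne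
  have h3 : volume K * volume (plr K z) = ENNReal.ofReal (volume.real K * volume.real (plr K z)) := by
    rw [ENNReal.ofReal_mul measureReal_nonneg, Measure.real, Measure.real,
      ENNReal.ofReal_toReal hv1, ENNReal.ofReal_toReal hv2]
  have hval : 0 ≤ val n := by unfold val; positivity
  rw [hpe, h3]
  refine ⟨ENNReal.ofReal_le_ofReal h.1, ?_⟩
  rw [ENNReal.ofReal_eq_ofReal_iff (by positivity) hval]
  constructor
  · intro heq
    obtain ⟨p, hp, hKp⟩ := h.2 heq.le
    refine ⟨p, hp, hKp, ?_⟩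
    subst hKp
    exact (simplex_iff hp hz).1 heq
  · rintro ⟨p, hp, rfl, hzp⟩
    exact (simplex_iff hp hz).2 hzp

/-- real form -/
theorem mah_real (hn : 1 ≤ n) {K : Set (Fin n → ℝ)} (hK : Pool.Agent.TH808.BD K) {z : Fin n → ℝ}
    (hz : z ∈ interior K) :
    ((n : ℝ) + 1) ^ (n + 1) / (n.factorial : ℝ) ^ 2 ≤
      (volume K).toReal * (volume (Pool.Agent.TH808.plr K z)).toReal ∧
    ((volume K).toReal * (volume (Pool.Agent.TH808.plr K z)).toReal =
      ((n : ℝ) + 1) ^ (n + 1) / (n.factorial : ℝ) ^ 2 ↔ SimC K z) := by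
  have h := mahler hK.comp hK.conv hz
  refine ⟨h.1, ?_⟩
  have hval : 0 ≤ val n := by unfold val; positivity
  have h2 := (s_MAH n hn K hK z hz).2
  rw [← h2]
  have hv1 : volume K ≠ ⊤ := hK.comp.measure_lt_top.ne
  have hv2 : volume (Pool.Agent.TH808.plr K z) ≠ ⊤ := by
    have e : Pool.Agent.TH808.plr K z = plr K z := rfl
    rw [e, ← pol_sub]
    exact (pol_bdd (NB_sub hK.comp hK.conv hz)).measure_lt_top.ne
  constructor
  · intro h3
    rw [← ENNReal.ofReal_toReal hv1, ← ENNReal.ofReal_toReal hv2,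
      ← ENNReal.ofReal_mul ENNReal.toReal_nonneg, h3]
    rfl
  · intro h3
    have h4 := congrArg ENNReal.toReal h3
    rw [ENNReal.toReal_mul, ENNReal.toReal_ofReal hval] at h4
    exact h4

/-- the Mahler volume is finite at interior points -/
theorem MZ_finite {K : Set (Fin n → ℝ)} (hK : Pool.Agent.TH808.BD K) :
    ∃ w, Pool.Agent.TH808.MZ K w ≠ ∞ := by
  obtain ⟨z, hz⟩ := hK.int
  refine ⟨z, ?_⟩
  rw [Pool.Agent.TH808.MZ_plr hK.comp hK.conv hz]
  have hv1 : volume K ≠ ⊤ := hK.comp.measure_lt_top.ne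
  have hv2 : volume (Pool.Agent.TH808.plr K z) ≠ ⊤ := by
    have e : Pool.Agent.TH808.plr K z = plr K z := rfl
    rw [e, ← pol_sub]
    exact (pol_bdd (NB_sub hK.comp hK.conv hz)).measure_lt_top.ne
  exact ENNReal.mul_ne_top (ENNReal.natCast_ne_top _) (ENNReal.mul_ne_top hv1 hv2)

end Pool.Agent.TH929.MN
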