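import Pool.Agent.TH808.Growth

/-!
# Existence of the Santalo point and the infimum of the volume product
-/

set_option autoImplicit false

open MeasureTheory Set Filter Topology Matrix
open scoped ENNReal

namespace Pool.Agent.TH929.MN

open Pool.Agent.TH808

variable {n : ℕ}

/-- Fatou: the Mahler volume is lower semicontinuous along sequences -/
lemma MZ_liminf {K : Set (Fin n → ℝ)} (hK : IsCompact K) {u : ℕ → Fin n → ℝ} {z : Fin n → ℝ}
    (hu : Tendsto u atTop (𝓝 z)) : MZ K z ≤ liminf (fun k => MZ K (u k)) atTop := by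
  have hv : volume K ≠ ∞ := hK.measure_lt_top.ne
  have hsc := su_cont hK
  unfold MZ
  rw [ENNReal.liminf_const_mul_of_ne_top hv]
  gcongr
  unfold gI
  have h1 : ∀ x : Fin n → ℝ, ENNReal.ofReal (Real.exp (z ⬝ᵥ x - su K x)) =
      liminf (fun k => ENNReal.ofReal (Real.exp (u k ⬝ᵥ x - su K x))) atTop := by
    intro x
    refine (Tendsto.liminf_eq ?_).symm
    have hc : Continuous fun a : Fin n → ℝ => ENNReal.ofReal (Real.exp (a ⬝ᵥ x - su K x)) := by
      refine ENNReal.continuous_ofReal.comp (Real.continuous_exp.comp ?_)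
      refine Continuous.sub ?_ continuous_const
      unfold dotProduct
      fun_prop
    exact (hc.tendsto z).comp hu
  simp only [h1]
  refine lintegral_liminf_le fun k => ?_
  refine ENNReal.measurable_ofReal.comp (Real.measurable_exp.comp ?_)
  refine Measurable.sub ?_ hsc.measurable
  unfold dotProduct
  fun_prop

/-- the Mahler volume attains its minimum, in the interior -/
theorem exists_min {K : Set (Fin n → ℝ)} (hK : BD K) (hfin : ∃ w, MZ K w ≠ ∞) :
    ∃ z ∈ interior K, ∀ w, MZ K z ≤ MZ K w := by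
  obtain ⟨w0, hw0⟩ := hfin
  set S : Set ℝ≥0∞ := range (MZ K) with hS
  have hne : S.Nonempty := ⟨_, w0, rfl⟩
  obtain ⟨v, hv1, hv2, hv3⟩ := exists_seq_tendsto_sInf hne (OrderBot.bddBelow S)
  have hlt : sInf S < ∞ := lt_of_le_of_lt (sInf_le ⟨w0, rfl⟩) hw0.lt_top
  choose u hu using hv3
  -- eventually the points are in the interior
  have hev : ∀ᶠ k in atTop, u k ∈ interior K := by
    filter_upwards [hv2.eventually (gt_mem_nhds hlt)] with k hk
    by_contra hcon
    rw [← hu k, MZ_top hK.comp hK.conv hK.int hcon] at hk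
    exact absurd hk (lt_irrefl _)
  obtain ⟨k0, hk0⟩ := eventually_atTop.1 hev
  obtain ⟨z, hz, φ, hφ, hφz⟩ := hK.comp.tendsto_subseq
    (x := fun k => u (k + k0)) (fun k => interior_subset (hk0 _ (Nat.le_add_left _ _)))
  have h1 := MZ_liminf hK.comp hφz
  have h2 : Tendsto (fun k => MZ K (((fun k => u (k + k0)) ∘ φ) k)) atTop (𝓝 (sInf S)) := by
    have h3 : (fun k => MZ K (((fun k => u (k + k0)) ∘ φ) k)) = fun k => v (φ k + k0) := by
      funext k; exact hu _
    rw [h3]
    exact hv2.comp ((tendsto_add_atTop_nat k0).comp hφ.tendsto_atTop)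
  rw [h2.liminf_eq] at h1
  refine ⟨z, ?_, fun w => h1.trans (sInf_le ⟨w, rfl⟩)⟩
  by_contra hcon
  rw [MZ_top hK.comp hK.conv hK.int hcon] at h1
  exact absurd (lt_of_le_of_lt h1 hlt) (lt_irrefl _)

/-- in every dimension some body has Mahler volume at most that of the simplex -/
lemma exists_body (n : ℕ) : ∃ L : Set (Fin n → ℝ), BD L ∧ ∃ w, MZ L w ≤ ENNReal.ofReal (sv n) := by
  have h := Ach.add (m := 0) zero_le_one Ach.point n
  rw [zero_add] at h
  obtain ⟨L, hL, w, hw⟩ := h
  exact ⟨L, hL, w, by rwa [one_mul] at hw⟩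

end Pool.Agent.TH929.MN
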